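import Mathlib

set_option autoImplicit false

namespace Pool.Agent.Helper43.PLap4

/-- symmetric 4-linear real forms -/
structure Q4 (V : Type*) [AddCommGroup V] [Module ℝ V] where
  f : V → V → V → V → ℝ
  add1 : ∀ a a' b c d, f (a + a') b c d = f a b c d + f a' b c d
  smul1 : ∀ (r : ℝ) (a b c d : V), f (r • a) b c d = r * f a b c d
  s12 : ∀ a b c d, f a b c d = f b a c d
  s23 : ∀ a b c d, f a b c d = f a c b d
  s34 : ∀ a b c d, f a b c d = f a b d c

/-- symmetric bilinear real forms -/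
structure Q2 (V : Type*) [AddCommGroup V] [Module ℝ V] where
  f : V → V → ℝ
  add1 : ∀ a a' b, f (a + a') b = f a b + f a' b
  smul1 : ∀ (r : ℝ) (a b : V), f (r • a) b = r * f a b
  symm : ∀ a b, f a b = f b a

section forms
variable {V : Type*} [AddCommGroup V] [Module ℝ V]

namespace Q4
variable (Q : Q4 V)

lemma add2 (a b b' c d : V) : Q.f a (b + b') c d = Q.f a b c d + Q.f a b' c d := by
  rw [Q.s12 a (b + b'), Q.add1, Q.s12 b a, Q.s12 b' a]
lemma smul2 (r : ℝ) (a b c d : V) : Q.f a (r • b) c d = r * Q.f a b c d := by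
  rw [Q.s12 a (r • b), Q.smul1, Q.s12 b a]
lemma add3 (a b c c' d : V) : Q.f a b (c + c') d = Q.f a b c d + Q.f a b c' d := by
  rw [Q.s23 a b (c + c'), Q.add2, Q.s23 a c b, Q.s23 a c' b]
lemma smul3 (r : ℝ) (a b c d : V) : Q.f a b (r • c) d = r * Q.f a b c d := by
  rw [Q.s23 a b (r • c), Q.smul2, Q.s23 a c b]
lemma add4 (a b c d d' : V) : Q.f a b c (d + d') = Q.f a b c d + Q.f a b c d' := by
  rw [Q.s34 a b c (d + d'), Q.add3, Q.s34 a b d c, Q.s34 a b d' c]
lemma smul4 (r : ℝ) (a b c d : V) : Q.f a b c (r • d) = r * Q.f a b c d := by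
  rw [Q.s34 a b c (r • d), Q.smul3, Q.s34 a b d c]
lemma zero1 (b c d : V) : Q.f 0 b c d = 0 := by
  have := Q.smul1 0 0 b c d; simpa using this
lemma zero2 (a c d : V) : Q.f a 0 c d = 0 := by
  have := Q.smul2 0 a 0 c d; simpa using this
lemma zero3 (a b d : V) : Q.f a b 0 d = 0 := by
  have := Q.smul3 0 a b 0 d; simpa using this
lemma zero4 (a b c : V) : Q.f a b c 0 = 0 := by
  have := Q.smul4 0 a b c 0; simpa using this
lemma neg4 (a b c d : V) : Q.f a b c (-d) = - Q.f a b c d := by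
  have := Q.smul4 (-1) a b c d; simpa using this

/-- the linear functional of the last variable -/
def lin (a b c : V) : V →ₗ[ℝ] ℝ where
  toFun v := Q.f a b c v
  map_add' := Q.add4 a b c
  map_smul' r v := by simp [Q.smul4]

@[simp] lemma lin_apply (a b c v : V) : Q.lin a b c v = Q.f a b c v := rfl

/-- restriction to a submodule -/
def res (W : Submodule ℝ V) : Q4 W where
  f a b c d := Q.f a b c d
  add1 a a' b c d := by simp [Q.add1]
  smul1 r a b c d := by simp [Q.smul1]
  s12 a b c d := Q.s12 _ _ _ _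
  s23 a b c d := Q.s23 _ _ _ _
  s34 a b c d := Q.s34 _ _ _ _

@[simp] lemma res_f (W : Submodule ℝ V) (a b c d : W) : (Q.res W).f a b c d = Q.f a b c d := rfl

/-- scaling -/
def scale (s : ℝ) : Q4 V where
  f a b c d := s * Q.f a b c d
  add1 a a' b c d := by rw [Q.add1]; ring
  smul1 r a b c d := by rw [Q.smul1]; ring
  s12 a b c d := by rw [Q.s12]
  s23 a b c d := by rw [Q.s23]
  s34 a b c d := by rw [Q.s34]

@[simp] lemma scale_f (s : ℝ) (a b c d : V) : (Q.scale s).f a b c d = s * Q.f a b c d := rfl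

end Q4

namespace Q2
variable (K : Q2 V)

lemma add2 (a b b' : V) : K.f a (b + b') = K.f a b + K.f a b' := by
  rw [K.symm a, K.add1, K.symm b, K.symm b']
lemma smul2 (r : ℝ) (a b : V) : K.f a (r • b) = r * K.f a b := by
  rw [K.symm a, K.smul1, K.symm b]

def res (W : Submodule ℝ V) : Q2 W where
  f a b := K.f a b
  add1 a a' b := by simp [K.add1]
  smul1 r a b := by simp [K.smul1]
  symm a b := K.symm _ _

@[simp] lemma res_f (W : Submodule ℝ V) (a b : W) : (K.res W).f a b = K.f a b := rfl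

def scale (s : ℝ) : Q2 V where
  f a b := s * K.f a b
  add1 a a' b := by rw [K.add1]; ring
  smul1 r a b := by rw [K.smul1]; ring
  symm a b := by rw [K.symm]

@[simp] lemma scale_f (s : ℝ) (a b : V) : (K.scale s).f a b = s * K.f a b := rfl

end Q2

end forms

/-- coefficients of a polynomial function of degree 8 that vanishes identically -/
lemma coeff8 (c : Fin 9 → ℝ) (h : ∀ t : ℝ, ∑ i : Fin 9, c i * t ^ (i : ℕ) = 0) : ∀ i, c i = 0 := by
  classical
  set P : Polynomial ℝ := ∑ i : Fin 9, Polynomial.C (c i) * Polynomial.X ^ (i : ℕ) with hP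
  have h0 : P = 0 := by
    apply Polynomial.funext
    intro t
    rw [hP, Polynomial.eval_finsetSum]
    simpa using h t
  intro i
  have := congrArg (fun q => Polynomial.coeff q (i : ℕ)) h0
  simp only [hP, Polynomial.finsetSum_coeff, Polynomial.coeff_C_mul, Polynomial.coeff_X_pow,
    Polynomial.coeff_zero] at this
  rw [Finset.sum_eq_single i] at this
  · simpa using this
  · intro j _ hj
    have : (i : ℕ) ≠ (j : ℕ) := fun h => hj (Fin.ext h.symm)
    simp [this]
  · intro h; exact absurd (Finset.mem_univ i) h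

lemma coeff8' {c0 c1 c2 c3 c4 c5 c6 c7 c8 : ℝ}
    (h : ∀ t : ℝ, c0 + c1 * t + c2 * t ^ 2 + c3 * t ^ 3 + c4 * t ^ 4 + c5 * t ^ 5 + c6 * t ^ 6
      + c7 * t ^ 7 + c8 * t ^ 8 = 0) :
    c0 = 0 ∧ c1 = 0 ∧ c2 = 0 ∧ c3 = 0 ∧ c4 = 0 ∧ c5 = 0 ∧ c6 = 0 ∧ c7 = 0 ∧ c8 = 0 := by
  have := coeff8 ![c0, c1, c2, c3, c4, c5, c6, c7, c8] (by
    intro t
    have := h t
    simp [Fin.sum_univ_succ]
    linear_combination this)
  exact ⟨this 0, this 1, this 2, this 3, this 4, this 5, this 6, this 7, this 8⟩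

section riesz
variable {V : Type*} [NormedAddCommGroup V] [InnerProductSpace ℝ V] [FiniteDimensional ℝ V]

/-- Riesz representative of a linear functional -/
noncomputable def rep (L : V →ₗ[ℝ] ℝ) : V :=
  haveI : CompleteSpace V := FiniteDimensional.complete ℝ V
  (InnerProductSpace.toDual ℝ V).symm (LinearMap.toContinuousLinearMap L)

lemma inner_rep (L : V →ₗ[ℝ] ℝ) (v : V) : inner ℝ (rep L) v = L v := by
  haveI : CompleteSpace V := FiniteDimensional.complete ℝ V
  unfold rep
  rw [InnerProductSpace.toDual_symm_apply]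
  rfl

lemma eq_of_inner {x y : V} (h : ∀ v, inner ℝ x v = inner ℝ y v) : x = y :=
  ext_inner_right ℝ h

end riesz

end Pool.Agent.Helper43.PLap4
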