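import Pool.Agent.Helper43.PLap4.OddPart

set_option autoImplicit false

namespace Pool.Agent.Helper43.PLap4

universe u

section gen
variable {V : Type u} [NormedAddCommGroup V] [InnerProductSpace ℝ V]

/-- `Q(x,x,x,x)` is a multiple of the fourth power of the norm of a projection -/
def Proj4 (Q : Q4 V) : Prop :=
  ∃ (π : V →ₗ[ℝ] V) (θ : ℝ), (∀ x y, inner ℝ (π x) y = inner ℝ x (π y)) ∧
    (∀ x, π (π x) = π x) ∧ ∀ x, Q.f x x x x = θ * (inner ℝ (π x) x) ^ 2

/-- polarisation of `Q(w,w,w,w) = θ ⟨πw,w⟩²` -/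
lemma polar_q (Q : Q4 V) (π : V →ₗ[ℝ] V) (θ : ℝ) (hs : ∀ x y, inner ℝ (π x) y = inner ℝ x (π y))
    (h : ∀ x, Q.f x x x x = θ * (inner ℝ (π x) x) ^ 2) (w v : V) :
    Q.f w w w v = θ * inner ℝ (π w) w * inner ℝ (π w) v ∧
    3 * Q.f w w v v = θ * (inner ℝ (π w) w * inner ℝ (π v) v + 2 * (inner ℝ (π w) v) ^ 2) := by
  have e1 : ∀ t : ℝ, Q.f (w + t • v) (w + t • v) (w + t • v) (w + t • v) =
      Q.f w w w w + 4 * t * Q.f w w w v + 6 * t ^ 2 * Q.f w w v v + 4 * t ^ 3 * Q.f w v v v
        + t ^ 4 * Q.f v v v v := by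
    intro t
    have h1 : Q.f w w v w = Q.f w w w v := by rw [Q.s34]
    have h2 : Q.f w v w w = Q.f w w w v := by rw [Q.s23, Q.s34]
    have h3 : Q.f v w w w = Q.f w w w v := by rw [Q.s12, Q.s23, Q.s34]
    have h4 : Q.f w v w v = Q.f w w v v := by rw [Q.s23]
    have h5 : Q.f w v v w = Q.f w w v v := by rw [Q.s34, Q.s23]
    have h6 : Q.f v w w v = Q.f w w v v := by rw [Q.s12, Q.s23]
    have h7 : Q.f v w v w = Q.f w w v v := by rw [Q.s34, Q.s12, Q.s23]
    have h8 : Q.f v v w w = Q.f w w v v := by rw [Q.s23, Q.s12, Q.s34, Q.s23]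
    have h9 : Q.f v w v v = Q.f w v v v := by rw [Q.s12]
    have h10 : Q.f v v w v = Q.f w v v v := by rw [Q.s23, Q.s12]
    have h11 : Q.f v v v w = Q.f w v v v := by rw [Q.s34, Q.s23, Q.s12]
    simp only [Q.add1, Q.add2, Q.add3, Q.add4, Q.smul1, Q.smul2, Q.smul3, Q.smul4, h1, h2, h3, h4,
      h5, h6, h7, h8, h9, h10, h11]
    ring
  have e2 : ∀ t : ℝ, inner ℝ (π (w + t • v)) (w + t • v) =
      inner ℝ (π w) w + 2 * t * inner ℝ (π w) v + t ^ 2 * inner ℝ (π v) v := by
    intro t
    have : inner ℝ (π v) w = inner ℝ (π w) v := by rw [hs, real_inner_comm]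
    simp only [map_add, map_smul, inner_add_left, inner_add_right, real_inner_smul_left,
      real_inner_smul_right, this]
    ring
  have H := coeff8' (c0 := Q.f w w w w - θ * (inner ℝ (π w) w) ^ 2)
    (c1 := 4 * Q.f w w w v - θ * (4 * inner ℝ (π w) w * inner ℝ (π w) v))
    (c2 := 6 * Q.f w w v v - θ * (2 * inner ℝ (π w) w * inner ℝ (π v) v
      + 4 * (inner ℝ (π w) v) ^ 2))
    (c3 := 4 * Q.f w v v v - θ * (4 * inner ℝ (π w) v * inner ℝ (π v) v))
    (c4 := Q.f v v v v - θ * (inner ℝ (π v) v) ^ 2) (c5 := 0) (c6 := 0) (c7 := 0) (c8 := 0) (by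
      intro t
      have := h (w + t • v)
      rw [e1, e2] at this
      linear_combination this)
  obtain ⟨-, h1, h2, -⟩ := H
  constructor
  · linarith
  · linarith

lemma quad_zero {a b c a' b' c' : ℝ} (hc : c ≠ 0)
    (h : ∀ t : ℝ, (a + b * t + c * t ^ 2) ^ 3 * (a' + b' * t + c' * t ^ 2) = 0) : a' = 0 := by
  set P : Polynomial ℝ := Polynomial.C a + Polynomial.C b * Polynomial.X
    + Polynomial.C c * Polynomial.X ^ 2 with hP
  set P' : Polynomial ℝ := Polynomial.C a' + Polynomial.C b' * Polynomial.X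
    + Polynomial.C c' * Polynomial.X ^ 2 with hP'
  have h0 : P ^ 3 * P' = 0 := by
    apply Polynomial.funext
    intro t
    rw [hP, hP']
    simpa using h t
  have hne : P ≠ 0 := by
    intro h0
    have := congrArg (fun q => Polynomial.coeff q 2) h0
    simp [hP, Polynomial.coeff_X, Polynomial.coeff_C] at this
    exact hc this
  have h1 : P' = 0 := by
    rcases mul_eq_zero.1 h0 with h | h
    · exact absurd (pow_eq_zero_iff (by norm_num) |>.1 h) hne
    · exact h
  have := congrArg (fun q => Polynomial.coeff q 0) h1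
  simpa [hP', Polynomial.coeff_X, Polynomial.coeff_C] using this

end gen

section main
variable {V : Type u} [NormedAddCommGroup V] [InnerProductSpace ℝ V] [FiniteDimensional ℝ V]
variable {Q : Q4 V} {K : Q2 V} {e : V}

lemma bet_zero (S : Setup Q K e) (w : Wsub e) : bet Q e w = 0 := by
  apply eq_of_inner
  intro v
  rw [inner_bet, odd_zero S, inner_zero_left]

lemma cf_zero' (S : Setup Q K e) (w : Wsub e) :
    K.f w w = Q.f e e w w + 3 * inner ℝ (Rop Q e w) (Rop Q e w)
      + 9 * Q.f e e (Rop Q e w) (Rop Q e w) ∧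
    9 * Q.f w w (Rop Q e w) (Rop Q e w)
      - 9 * inner ℝ (Rop Q e w) (Rop Q e w) * K.f w w
      + 36 * inner ℝ (Rop Q e w) (Rop Q e w) * Q.f e e w w
      - 2 * inner ℝ (Rop Q e w) (del Q e w)
      + 6 * Q.f e e (Rop Q e w) (del Q e w)
      - 6 * K.f w w * Q.f e e w w + 6 * Q.f e e w w ^ 2 = 0 ∧
    6 * Q.f w w (Rop Q e w) (del Q e w)
      - 6 * inner ℝ (Rop Q e w) (del Q e w) * K.f w w
      + 12 * inner ℝ (Rop Q e w) (del Q e w) * Q.f e e w w
      - inner ℝ (del Q e w) (del Q e w) + Q.f e e (del Q e w) (del Q e w)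
      - 9 * K.f w w * Q.f e e w w ^ 2 + 9 * Q.f e e w w ^ 3 = 0 := by
  obtain ⟨-, -, h2, -, h4, h6⟩ := cf_zero S w
  rw [bet_zero S] at h4 h6
  simp only [Submodule.coe_zero, Q.zero3, Q.zero4, inner_zero_left, inner_zero_right] at h4 h6
  refine ⟨h2, by linear_combination h4, by linear_combination h6⟩

lemma darb_res (S : Setup Q K e) : Darb (Q.res (Wsub e)) (K.res (Wsub e)) := by
  intro x y hy
  have := S.hD (x : V) (y : V) (by
    intro v
    obtain ⟨s, v', rfl⟩ := decomp S.he v
    rw [inner_add_right, real_inner_smul_right, real_inner_comm, Wsub_inner, Q.add4, Q.smul4]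
    have h1 : Q.f x x x e = 0 := by
      rw [Q.s34, Q.s23, Q.s12]; exact odd_zero S x x x
    rw [h1, ← Submodule.coe_inner, hy v']
    simp)
  simpa using this

/-- The two possible shapes on the orthogonal complement. -/
lemma shape (S : Setup Q K e) (hP : Proj4 (Q.res (Wsub e))) :
    ∃ (π : Wsub e →ₗ[ℝ] Wsub e), (∀ x y, inner ℝ (π x) y = inner ℝ x (π y)) ∧
      (∀ x, π (π x) = π x) ∧ (∀ w : Wsub e, Q.f e e w w = inner ℝ (π w) w / 3) ∧
      ∀ w : Wsub e, Q.f w w w w = (inner ℝ (π w) w) ^ 2 := by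
  obtain ⟨π, θ, hs, hi, hq⟩ := hP
  obtain ⟨n, hn⟩ : ∃ n, Module.finrank ℝ (Wsub e) = n := ⟨_, rfl⟩
  set b := (R_symm Q e).eigenvectorBasis hn with hb
  set r := (R_symm Q e).eigenvalues hn with hr
  have hR : ∀ i, Rop Q e (b i) = r i • b i := fun i =>
    (R_symm Q e).apply_eigenvectorBasis hn i
  have hbb : ∀ i, inner ℝ (b i) (b i) = (1:ℝ) := fun i => by
    rw [real_inner_self_eq_norm_sq, b.norm_eq_one]; norm_num
  have hρ : ∀ i, Q.f e e (b i) (b i) = r i := fun i => by
    rw [← inner_R, hR, real_inner_smul_left, hbb, mul_one]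
  have hRR : ∀ i, inner ℝ (Rop Q e (b i)) (Rop Q e (b i)) = r i ^ 2 := fun i => by
    rw [hR, real_inner_smul_left, real_inner_smul_right, hbb]; ring
  have hRRR : ∀ i, Q.f e e (Rop Q e (b i)) (Rop Q e (b i)) = r i ^ 3 := fun i => by
    rw [← inner_R, hR, map_smul, hR, real_inner_smul_left, real_inner_smul_left,
      real_inner_smul_right, hbb]; ring
  have hKb : ∀ i, K.f (b i) (b i) = r i + 3 * r i ^ 2 + 9 * r i ^ 3 := fun i => by
    obtain ⟨h2, -⟩ := cf_zero' S (b i)
    rw [hρ, hRR, hRRR] at h2; exact h2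
  have hdel : ∀ i, inner ℝ (Rop Q e (b i)) (del Q e (b i)) = r i * Q.f (b i) (b i) (b i) (b i) :=
    fun i => by
      rw [hR, real_inner_smul_left, real_inner_comm, inner_del]
  have hRdel : ∀ i, Q.f e e (Rop Q e (b i)) (del Q e (b i))
      = r i ^ 2 * Q.f (b i) (b i) (b i) (b i) := fun i => by
    rw [← inner_R, hR, map_smul, hR, real_inner_smul_left, real_inner_smul_left, real_inner_comm,
      inner_del]; ring
  have hDrr : ∀ i, Q.f (b i) (b i) (Rop Q e (b i)) (Rop Q e (b i))
      = r i ^ 2 * Q.f (b i) (b i) (b i) (b i) := fun i => by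
    rw [hR]; simp only [Submodule.coe_smul, Q.smul3, Q.smul4]; ring
  have h4 : ∀ i, 9 * (r i ^ 2 * Q.f (b i) (b i) (b i) (b i))
      - 9 * r i ^ 2 * K.f (b i) (b i) + 36 * r i ^ 2 * r i
      - 2 * (r i * Q.f (b i) (b i) (b i) (b i)) + 6 * (r i ^ 2 * Q.f (b i) (b i) (b i) (b i))
      - 6 * K.f (b i) (b i) * r i + 6 * r i ^ 2 = 0 := fun i => by
    obtain ⟨-, h4, -⟩ := cf_zero' S (b i)
    rw [hρ, hRR, hdel, hRdel, hDrr] at h4; exact h4
  by_cases hz : ∀ w : Wsub e, Q.f w w w w = 0
  · -- degenerate case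
    have hπ0 : ∀ x y : Wsub e, inner ℝ ((0 : Wsub e →ₗ[ℝ] Wsub e) x) y
        = inner ℝ x ((0 : Wsub e →ₗ[ℝ] Wsub e) y) := fun x y => by simp
    have hpol := fun w v : Wsub e => polar_q (Q.res (Wsub e)) (0 : Wsub e →ₗ[ℝ] Wsub e) 0 hπ0
      (fun x => by simpa using hz x) w v
    have hdel0 : ∀ w : Wsub e, del Q e w = 0 := fun w => by
      apply eq_of_inner
      intro v
      have := (hpol w v).1
      simp at this
      rw [inner_del, this, inner_zero_left]
    have hr0 : ∀ i, r i = 0 := fun i => by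
      obtain ⟨-, -, h6⟩ := cf_zero' S (b i)
      rw [hdel0, hρ, hKb] at h6
      have h4i := h4 i
      rw [hz, hKb] at h4i
      simp only [Submodule.coe_zero, Q.zero4, inner_zero_right, inner_zero_left, Q.zero3] at h6
      have h6' : r i ^ 4 * (1 + 3 * r i) = 0 := by linear_combination -(1/27 : ℝ) * h6
      rcases mul_eq_zero.1 h6' with h | h
      · exact pow_eq_zero_iff (by norm_num) |>.1 h
      · have : r i = -1/3 := by linarith
        rw [this] at h4i
        norm_num at h4i
    have hR0 : ∀ w : Wsub e, Rop Q e w = 0 := by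
      have : Rop Q e = 0 := b.toBasis.ext (fun i => by simp [hR, hr0])
      intro w; rw [this]; rfl
    refine ⟨0, hπ0, fun x => by simp, fun w => ?_, fun w => by simp [hz]⟩
    rw [← inner_R, hR0]; simp
  · push Not at hz
    obtain ⟨w1, hw1⟩ := hz
    have hq1 := hq w1
    simp only [Q4.res_f] at hq1
    have hθ : θ ≠ 0 := by rintro rfl; apply hw1; rw [hq1]; ring
    have hqw1 : inner ℝ (π w1) w1 ≠ (0:ℝ) := by
      intro h; apply hw1; rw [hq1, h]; ring
    have hpol := fun w v : Wsub e => polar_q (Q.res (Wsub e)) π θ hs hq w v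
    simp only [Q4.res_f] at hpol
    have hππ : ∀ w : Wsub e, inner ℝ (π w) (π w) = inner ℝ (π w) w := fun w => by
      rw [hs, hi, real_inner_comm]
    -- cofactor on W
    have hKq3 : ∀ w : Wsub e, (inner ℝ (π w) w) ^ 3 * (K.f w w - θ * inner ℝ (π w) w) = 0 := by
      intro w
      have hy := darb_res S w ((θ * inner ℝ (π w) w) • π w) (by
        intro v
        rw [real_inner_smul_left]
        simp only [Q4.res_f]
        rw [(hpol w v).1])
      simp only [Q4.res_f, Q2.res_f, Submodule.coe_smul, Q.smul3, Q.smul4,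
        real_inner_smul_left, real_inner_smul_right] at hy
      have h2 := (hpol w (π w)).2
      rw [hi, hππ] at h2
      rw [hππ] at hy
      have : θ ^ 2 * ((inner ℝ (π w) w) ^ 3 * (K.f w w - θ * inner ℝ (π w) w)) = 0 := by
        linear_combination (-1 : ℝ) * hy + (1/3 : ℝ) * (θ * inner ℝ (π w) w) ^ 2 * h2
      rcases mul_eq_zero.1 this with h | h
      · exact absurd (pow_eq_zero_iff (by norm_num) |>.1 h) hθ
      · exact h
    have hKq : ∀ w : Wsub e, K.f w w = θ * inner ℝ (π w) w := by
      intro w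
      have := quad_zero (a := inner ℝ (π w) w) (b := 2 * inner ℝ (π w) w1)
        (c := inner ℝ (π w1) w1) (a' := K.f w w - θ * inner ℝ (π w) w)
        (b' := 2 * K.f w w1 - θ * (2 * inner ℝ (π w) w1))
        (c' := K.f w1 w1 - θ * inner ℝ (π w1) w1) hqw1 (by
          intro t
          have h3 := hKq3 (w + t • w1)
          have e2 : inner ℝ (π (w + t • w1)) (w + t • w1) =
              inner ℝ (π w) w + 2 * inner ℝ (π w) w1 * t + inner ℝ (π w1) w1 * t ^ 2 := by
            have : inner ℝ (π w1) w = inner ℝ (π w) w1 := by rw [hs, real_inner_comm]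
            simp only [map_add, map_smul, inner_add_left, inner_add_right, real_inner_smul_left,
              real_inner_smul_right, this]
            ring
          have e3 : K.f ((w + t • w1 : Wsub e) : V) ((w + t • w1 : Wsub e) : V) =
              K.f w w + 2 * K.f w w1 * t + K.f w1 w1 * t ^ 2 := by
            simp only [Submodule.coe_add, Submodule.coe_smul, K.add1, K.add2, K.smul1, K.smul2,
              K.symm (w1 : V) (w : V)]
            ring
          rw [e2, e3] at h3
          linear_combination h3)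
      linarith
    -- operator identity
    have hop : ∀ w v : Wsub e, inner ℝ (Rop Q e w) v + 3 * inner ℝ (Rop Q e w) (Rop Q e v)
        + 9 * inner ℝ (Rop Q e (Rop Q e w)) (Rop Q e v) = θ * inner ℝ (π w) v := by
      have hd : ∀ w : Wsub e, inner ℝ (Rop Q e w) w + 3 * inner ℝ (Rop Q e w) (Rop Q e w)
        + 9 * inner ℝ (Rop Q e (Rop Q e w)) (Rop Q e w) = θ * inner ℝ (π w) w := by
        intro w
        obtain ⟨h2, -⟩ := cf_zero' S w
        rw [hKq, ← inner_R, ← inner_R] at h2
        rw [h2]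
      intro w v
      have h1 := hd w
      have h2 := hd v
      have h3 := hd (w + v)
      have c1 : inner ℝ (Rop Q e v) w = inner ℝ (Rop Q e w) v := by
        rw [(R_symm Q e) v w, real_inner_comm]
      have c2 : inner ℝ (Rop Q e v) (Rop Q e w) = inner ℝ (Rop Q e w) (Rop Q e v) :=
        real_inner_comm _ _
      have c3 : inner ℝ (Rop Q e (Rop Q e v)) (Rop Q e w)
          = inner ℝ (Rop Q e (Rop Q e w)) (Rop Q e v) := by
        rw [(R_symm Q e) (Rop Q e v) (Rop Q e w), real_inner_comm]
      have c4 : inner ℝ (π v) w = inner ℝ (π w) v := by rw [hs, real_inner_comm]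
      simp only [map_add, inner_add_left, inner_add_right, c1, c2, c3, c4] at h3
      linear_combination (1/2 : ℝ) * (h3 - h1 - h2)
    have hπb : ∀ i, θ • π (b i) = (r i + 3 * r i ^ 2 + 9 * r i ^ 3) • b i := by
      intro i
      apply eq_of_inner
      intro v
      have h1 := hop (b i) v
      have h2 : inner ℝ (Rop Q e (b i)) (Rop Q e v) = r i ^ 2 * inner ℝ (b i) v := by
        rw [← (R_symm Q e) (Rop Q e (b i)) v, hR, map_smul, hR, real_inner_smul_left,
          real_inner_smul_left]; ring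
      have h3 : inner ℝ (Rop Q e (Rop Q e (b i))) (Rop Q e v) = r i ^ 3 * inner ℝ (b i) v := by
        rw [← (R_symm Q e) (Rop Q e (Rop Q e (b i))) v, hR, map_smul, hR, map_smul, map_smul, hR,
          real_inner_smul_left, real_inner_smul_left, real_inner_smul_left]; ring
      rw [h2, h3, hR, real_inner_smul_left] at h1
      rw [real_inner_smul_left, real_inner_smul_left, ← h1]
      ring
    have hcase : ∀ i, (r i = 0 ∧ π (b i) = 0) ∨ (r i = 1/3 ∧ π (b i) = b i ∧ θ = 1) := by
      intro i
      obtain ⟨φ, hφ⟩ : ∃ φ, φ = r i + 3 * r i ^ 2 + 9 * r i ^ 3 := ⟨_, rfl⟩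
      have h1 := hπb i
      rw [← hφ] at h1
      have h2 : φ * φ = θ * φ := by
        have h3 : θ • π (θ • π (b i)) = θ • (θ • π (b i)) := by
          rw [map_smul, hi]
        rw [h1, map_smul, smul_comm, h1] at h3
        have h4 := congrArg (fun x => inner ℝ x (b i)) h3
        simp only [real_inner_smul_left, hbb, mul_one] at h4
        exact h4
      have h3 : φ = 0 ∨ φ = θ := by
        rcases eq_or_ne φ 0 with h | h
        · exact Or.inl h
        · right; exact mul_right_cancel₀ h h2
      rcases h3 with h3 | h3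
      · left
        have hr0 : r i = 0 := by
          by_contra hne
          have : 1 + 3 * r i + 9 * r i ^ 2 = 0 := by
            apply mul_left_cancel₀ hne
            rw [mul_zero]; rw [hφ] at h3; linear_combination h3
          nlinarith [sq_nonneg (r i + 1/3), sq_nonneg (r i)]
        refine ⟨hr0, ?_⟩
        rw [h3, zero_smul] at h1
        exact (smul_eq_zero.1 h1).resolve_left hθ
      · right
        rw [h3] at h1
        have hπi : π (b i) = b i := smul_right_injective _ hθ h1
        have hqi : Q.f (b i) (b i) (b i) (b i) = θ := by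
          have := hq (b i)
          simp only [Q4.res_f] at this
          rw [this, hπi, hbb]; ring
        have h4i := h4 i
        rw [hqi, hKb, ← hφ, h3] at h4i
        have h5 : 2 * r i ^ 2 * (3 * r i - 1) ^ 3 = 0 := by
          rw [← h3, hφ] at h4i
          linear_combination h4i
        have h6 : r i ≠ 0 := by
          intro h0; apply hθ; rw [← h3, hφ, h0]; ring
        have h7 : r i = 1/3 := by
          have : (3 * r i - 1) ^ 3 = 0 := by
            rcases mul_eq_zero.1 h5 with h | h
            · exfalso; apply h6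
              have : r i ^ 2 = 0 := by linarith
              exact pow_eq_zero_iff (by norm_num) |>.1 this
            · exact h
          have := pow_eq_zero_iff (by norm_num : (3:ℕ) ≠ 0) |>.1 this
          linarith
        refine ⟨h7, hπi, ?_⟩
        rw [← h3, hφ, h7]; norm_num
    have hθ1 : θ = 1 := by
      by_contra hne
      have : ∀ i, π (b i) = 0 := fun i => by
        rcases hcase i with h | h
        · exact h.2
        · exact absurd h.2.2 hne
      have h0 : π = 0 := b.toBasis.ext (fun i => by simpa using this i)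
      apply hqw1; rw [h0]; simp
    have hR3 : ∀ w : Wsub e, Rop Q e w = (1/3 : ℝ) • π w := by
      have : Rop Q e = (1/3 : ℝ) • π := b.toBasis.ext (fun i => by
        rw [OrthonormalBasis.coe_toBasis, hR, LinearMap.smul_apply]
        rcases hcase i with h | h
        · rw [h.1, h.2]; simp
        · rw [h.1, h.2.1])
      intro w; rw [this]; rfl
    refine ⟨π, hs, hi, fun w => ?_, fun w => ?_⟩
    · rw [← inner_R, hR3, real_inner_smul_left]; ring
    · have := hq w
      simp only [Q4.res_f] at this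
      rw [this, hθ1]; ring

end main

end Pool.Agent.Helper43.PLap4
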