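import Pool.Agent.Helper43.PLap4.Basic

set_option autoImplicit false

namespace Pool.Agent.Helper43.PLap4

variable {V : Type*} [NormedAddCommGroup V] [InnerProductSpace ℝ V] [FiniteDimensional ℝ V]

/-- Darboux property of the quartic form `Q(x,x,x,x)` with quadratic cofactor `K(x,x)` -/
def Darb (Q : Q4 V) (K : Q2 V) : Prop :=
  ∀ x y : V, (∀ v, inner ℝ y v = Q.f x x x v) → Q.f x x y y = K.f x x * inner ℝ y y

structure Setup (Q : Q4 V) (K : Q2 V) (e : V) : Prop where
  he : inner ℝ e e = (1 : ℝ)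
  hQ : Q.f e e e e = 1
  hw : ∀ w, inner ℝ e w = (0 : ℝ) → Q.f e e e w = 0
  hD : Darb Q K

noncomputable abbrev Wsub (e : V) : Submodule ℝ V := (ℝ ∙ e)ᗮ

omit [FiniteDimensional ℝ V] in
lemma Wsub_inner {e : V} (w : Wsub e) : inner ℝ e (w : V) = (0 : ℝ) :=
  Submodule.mem_orthogonal_singleton_iff_inner_right.1 w.2

/-- functional on `Wsub e` -/
noncomputable def linW (Q : Q4 V) (e a b c : V) : Wsub e →ₗ[ℝ] ℝ := (Q.lin a b c).comp (Wsub e).subtype

omit [FiniteDimensional ℝ V] in
lemma linW_apply (Q : Q4 V) (e a b c : V) (v : Wsub e) : linW Q e a b c v = Q.f a b c v := rfl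

noncomputable def Rop (Q : Q4 V) (e : V) : Wsub e →ₗ[ℝ] Wsub e where
  toFun w := rep (linW Q e e e w)
  map_add' a b := by
    apply eq_of_inner
    intro v
    rw [inner_add_left, inner_rep, inner_rep, inner_rep]
    simp only [linW_apply, Submodule.coe_add, Q.add3]
  map_smul' r a := by
    apply eq_of_inner
    intro v
    rw [RingHom.id_apply, real_inner_smul_left, inner_rep, inner_rep]
    simp only [linW_apply, Submodule.coe_smul, Q.smul3]

lemma inner_R (Q : Q4 V) (e : V) (w v : Wsub e) : inner ℝ (Rop Q e w) v = Q.f e e w v := by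
  change inner ℝ (rep (linW Q e e e w)) v = _
  rw [inner_rep]; rfl

noncomputable def bet (Q : Q4 V) (e : V) (w : Wsub e) : Wsub e := rep (linW Q e e w w)
noncomputable def del (Q : Q4 V) (e : V) (w : Wsub e) : Wsub e := rep (linW Q e w w w)

lemma inner_bet (Q : Q4 V) (e : V) (w v : Wsub e) : inner ℝ (bet Q e w) v = Q.f e w w v := by
  unfold bet; rw [inner_rep]; rfl
lemma inner_del (Q : Q4 V) (e : V) (w v : Wsub e) : inner ℝ (del Q e w) v = Q.f w w w v := by
  unfold del; rw [inner_rep]; rfl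

lemma R_symm (Q : Q4 V) (e : V) : (Rop Q e).IsSymmetric := by
  intro a b
  rw [inner_R, real_inner_comm, inner_R, Q.s34]

omit [FiniteDimensional ℝ V] in
lemma decomp {e : V} (he : inner ℝ e e = (1 : ℝ)) (v : V) :
    ∃ (s : ℝ) (v' : Wsub e), v = s • e + (v' : V) := by
  refine ⟨inner ℝ e v, ⟨v - (inner ℝ e v : ℝ) • e, ?_⟩, ?_⟩
  · rw [Submodule.mem_orthogonal_singleton_iff_inner_right, inner_sub_right, inner_smul_right, he]
    simp
  · simp

/-- polynomial expansion of a 4-linear form -/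
lemma expand_xxyy (Q : Q4 V) (e w z : V) (t s : ℝ) :
    Q.f (t • e + w) (t • e + w) (s • e + z) (s • e + z) =
      t ^ 2 * s ^ 2 * Q.f e e e e + 2 * t ^ 2 * s * Q.f e e e z + t ^ 2 * Q.f e e z z
      + 2 * t * s ^ 2 * Q.f e e e w + 4 * t * s * Q.f e e w z + 2 * t * Q.f e w z z
      + s ^ 2 * Q.f e e w w + 2 * s * Q.f e w w z + Q.f w w z z := by
  have h1 : Q.f w e e e = Q.f e e e w := by rw [Q.s12, Q.s23, Q.s34]
  have h2 : Q.f e w e e = Q.f e e e w := by rw [Q.s23, Q.s34]
  have h3 : Q.f w w e e = Q.f e e w w := by rw [Q.s23, Q.s12, Q.s34, Q.s23]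
  have h4 : Q.f e w e z = Q.f e e w z := by rw [Q.s23]
  have h5 : Q.f w e e z = Q.f e e w z := by rw [Q.s12, Q.s23]
  have h6 : Q.f e e z e = Q.f e e e z := by rw [Q.s34]
  have h7 : Q.f e w z e = Q.f e e w z := by rw [Q.s34, Q.s23]
  have h8 : Q.f w e z e = Q.f e e w z := by rw [Q.s34, Q.s12, Q.s23]
  have h9 : Q.f w e z z = Q.f e w z z := by rw [Q.s12]
  have h10 : Q.f w w z e = Q.f e w w z := by rw [Q.s34, Q.s23, Q.s12]
  have h11 : Q.f w w e z = Q.f e w w z := by rw [Q.s23, Q.s12]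
  simp only [Q.add1, Q.add2, Q.add3, Q.add4, Q.smul1, Q.smul2, Q.smul3, Q.smul4,
    h1, h2, h3, h4, h5, h6, h7, h8, h9, h10, h11]
  ring

lemma expand_xxx (Q : Q4 V) (e w v : V) (t : ℝ) :
    Q.f (t • e + w) (t • e + w) (t • e + w) v =
      t ^ 3 * Q.f e e e v + 3 * t ^ 2 * Q.f e e w v + 3 * t * Q.f e w w v + Q.f w w w v := by
  have h1 : Q.f w e e v = Q.f e e w v := by rw [Q.s12, Q.s23]
  have h2 : Q.f e w e v = Q.f e e w v := by rw [Q.s23]
  have h3 : Q.f w w e v = Q.f e w w v := by rw [Q.s23, Q.s12]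
  have h4 : Q.f w e w v = Q.f e w w v := by rw [Q.s12]
  simp only [Q.add1, Q.add2, Q.add3, Q.smul1, Q.smul2, Q.smul3, h1, h2, h3, h4]
  ring

/-- expansion of a symmetric bilinear expression at `3 t² r + 3 t β + δ` -/
lemma quad_expand (g : V → V → ℝ) (ga1 : ∀ a a' b, g (a + a') b = g a b + g a' b)
    (gs1 : ∀ (r : ℝ) a b, g (r • a) b = r * g a b) (gc : ∀ a b, g a b = g b a)
    (r β δ : V) (t : ℝ) :
    g ((3 * t ^ 2) • r + (3 * t) • β + δ) ((3 * t ^ 2) • r + (3 * t) • β + δ) =
      9 * t ^ 4 * g r r + 18 * t ^ 3 * g r β + t ^ 2 * (9 * g β β + 6 * g r δ)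
        + 6 * t * g β δ + g δ δ := by
  have ga2 : ∀ a b b', g a (b + b') = g a b + g a b' := fun a b b' => by
    rw [gc, ga1, gc b, gc b']
  have gs2 : ∀ (r : ℝ) a b, g a (r • b) = r * g a b := fun r a b => by rw [gc, gs1, gc b]
  simp only [ga1, ga2, gs1, gs2, gc β r, gc δ r, gc δ β]
  ring

/-- The coefficients of the Darboux identity along the line `t e + w` -/
lemma cf_zero {Q : Q4 V} {K : Q2 V} {e : V} (S : Setup Q K e) (w : Wsub e) :
    K.f e e = 1 ∧ K.f e w = 0 ∧
    -- order two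
    K.f w w = Q.f e e w w + 3 * inner ℝ (Rop Q e w) (Rop Q e w)
      + 9 * Q.f e e (Rop Q e w) (Rop Q e w) ∧
    -- order three
    Q.f e w (Rop Q e w) (Rop Q e w) + Q.f e e (Rop Q e w) (bet Q e w) = 0 ∧
    -- order four
    36 * Q.f e w (Rop Q e w) (bet Q e w) + 9 * Q.f w w (Rop Q e w) (Rop Q e w)
      - 9 * inner ℝ (Rop Q e w) (Rop Q e w) * K.f w w
      + 36 * inner ℝ (Rop Q e w) (Rop Q e w) * Q.f e e w w
      - 2 * inner ℝ (Rop Q e w) (del Q e w) - 3 * inner ℝ (bet Q e w) (bet Q e w)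
      + 6 * Q.f e e (Rop Q e w) (del Q e w) + 9 * Q.f e e (bet Q e w) (bet Q e w)
      - 6 * K.f w w * Q.f e e w w + 6 * Q.f e e w w ^ 2 = 0 ∧
    -- order six
    12 * Q.f e w (bet Q e w) (del Q e w) + 6 * Q.f w w (Rop Q e w) (del Q e w)
      + 9 * Q.f w w (bet Q e w) (bet Q e w) + 18 * inner ℝ (Rop Q e w) (bet Q e w) * Q.f e w w w
      - 6 * inner ℝ (Rop Q e w) (del Q e w) * K.f w w
      + 12 * inner ℝ (Rop Q e w) (del Q e w) * Q.f e e w w
      - 9 * inner ℝ (bet Q e w) (bet Q e w) * K.f w w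
      + 18 * inner ℝ (bet Q e w) (bet Q e w) * Q.f e e w w
      - inner ℝ (del Q e w) (del Q e w) + Q.f e e (del Q e w) (del Q e w)
      - 9 * K.f w w * Q.f e e w w ^ 2 + 9 * Q.f e e w w ^ 3 = 0 := by
  have H : ∀ t : ℝ, (Q.f w w (del Q e w) (del Q e w) + 2 * inner ℝ (bet Q e w) (del Q e w) * Q.f e w w w
        - inner ℝ (del Q e w) (del Q e w) * K.f w w - Q.f e w w w * Q.f e w w w * K.f w w
        + Q.f e w w w * Q.f e w w w * Q.f e e w w)
      + (2 * Q.f e w (del Q e w) (del Q e w) + 6 * Q.f w w (bet Q e w) (del Q e w)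
        + 4 * inner ℝ (Rop Q e w) (del Q e w) * Q.f e w w w
        + 6 * inner ℝ (bet Q e w) (bet Q e w) * Q.f e w w w
        - 6 * inner ℝ (bet Q e w) (del Q e w) * K.f w w
        + 6 * inner ℝ (bet Q e w) (del Q e w) * Q.f e e w w
        - 2 * inner ℝ (del Q e w) (del Q e w) * K.f e w - 2 * K.f e w * Q.f e w w w * Q.f e w w w
        - 6 * Q.f e w w w * K.f w w * Q.f e e w w
        + 6 * Q.f e w w w * Q.f e e w w * Q.f e e w w) * t
      + (12 * Q.f e w (bet Q e w) (del Q e w) + 6 * Q.f w w (Rop Q e w) (del Q e w)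
        + 9 * Q.f w w (bet Q e w) (bet Q e w)
        + 18 * inner ℝ (Rop Q e w) (bet Q e w) * Q.f e w w w
        - 6 * inner ℝ (Rop Q e w) (del Q e w) * K.f w w
        + 12 * inner ℝ (Rop Q e w) (del Q e w) * Q.f e e w w
        - 9 * inner ℝ (bet Q e w) (bet Q e w) * K.f w w
        + 18 * inner ℝ (bet Q e w) (bet Q e w) * Q.f e e w w
        - 12 * inner ℝ (bet Q e w) (del Q e w) * K.f e w
        - inner ℝ (del Q e w) (del Q e w) * K.f e e - K.f e e * Q.f e w w w * Q.f e w w w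
        - 12 * K.f e w * Q.f e w w w * Q.f e e w w + Q.f e e (del Q e w) (del Q e w)
        + Q.f e w w w * Q.f e w w w - 9 * K.f w w * Q.f e e w w * Q.f e e w w
        + 9 * Q.f e e w w * Q.f e e w w * Q.f e e w w) * t ^ 2
      + (12 * Q.f e w (Rop Q e w) (del Q e w) + 18 * Q.f e w (bet Q e w) (bet Q e w)
        + 18 * Q.f w w (Rop Q e w) (bet Q e w)
        + 12 * inner ℝ (Rop Q e w) (Rop Q e w) * Q.f e w w w
        - 18 * inner ℝ (Rop Q e w) (bet Q e w) * K.f w w
        + 54 * inner ℝ (Rop Q e w) (bet Q e w) * Q.f e e w w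
        - 12 * inner ℝ (Rop Q e w) (del Q e w) * K.f e w
        - 18 * inner ℝ (bet Q e w) (bet Q e w) * K.f e w
        + 2 * inner ℝ (bet Q e w) (del Q e w) - 6 * inner ℝ (bet Q e w) (del Q e w) * K.f e e
        - 6 * K.f e e * Q.f e w w w * Q.f e e w w - 18 * K.f e w * Q.f e e w w * Q.f e e w w
        + 6 * Q.f e e (bet Q e w) (del Q e w) - 2 * Q.f e w w w * K.f w w
        + 8 * Q.f e w w w * Q.f e e w w) * t ^ 3
      + (36 * Q.f e w (Rop Q e w) (bet Q e w) + 9 * Q.f w w (Rop Q e w) (Rop Q e w)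
        - 9 * inner ℝ (Rop Q e w) (Rop Q e w) * K.f w w
        + 36 * inner ℝ (Rop Q e w) (Rop Q e w) * Q.f e e w w
        - 36 * inner ℝ (Rop Q e w) (bet Q e w) * K.f e w
        + 4 * inner ℝ (Rop Q e w) (del Q e w) - 6 * inner ℝ (Rop Q e w) (del Q e w) * K.f e e
        + 6 * inner ℝ (bet Q e w) (bet Q e w) - 9 * inner ℝ (bet Q e w) (bet Q e w) * K.f e e
        - 9 * K.f e e * Q.f e e w w * Q.f e e w w - 4 * K.f e w * Q.f e w w w
        + 6 * Q.f e e (Rop Q e w) (del Q e w) + 9 * Q.f e e (bet Q e w) (bet Q e w)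
        - 6 * K.f w w * Q.f e e w w + 15 * Q.f e e w w * Q.f e e w w) * t ^ 4
      + (18 * Q.f e w (Rop Q e w) (Rop Q e w) - 18 * inner ℝ (Rop Q e w) (Rop Q e w) * K.f e w
        + 18 * inner ℝ (Rop Q e w) (bet Q e w) - 18 * inner ℝ (Rop Q e w) (bet Q e w) * K.f e e
        - 2 * K.f e e * Q.f e w w w - 12 * K.f e w * Q.f e e w w
        + 18 * Q.f e e (Rop Q e w) (bet Q e w) + 2 * Q.f e w w w) * t ^ 5
      + (12 * inner ℝ (Rop Q e w) (Rop Q e w) - 9 * inner ℝ (Rop Q e w) (Rop Q e w) * K.f e e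
        - 6 * K.f e e * Q.f e e w w + 9 * Q.f e e (Rop Q e w) (Rop Q e w) - K.f w w
        + 7 * Q.f e e w w) * t ^ 6
      + (- 2 * K.f e w) * t ^ 7
      + (1 - K.f e e) * t ^ 8 = 0 := by
    intro t
    set r := Rop Q e w with hr
    set β := bet Q e w with hβ
    set δ := del Q e w with hδ
    set ρ := Q.f e e w w with hρ
    set b := Q.f e w w w with hb
    set yt : ℝ := t ^ 3 + 3 * ρ * t + b with hyt
    set z : Wsub e := (3 * t ^ 2) • r + (3 * t) • β + δ with hz
    have key := S.hD (t • e + (w : V)) (yt • e + (z : V)) (by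
      intro v
      obtain ⟨s, v', rfl⟩ := decomp S.he v
      rw [expand_xxx]
      have e1 : inner ℝ (yt • e + (z : V)) (s • e + (v' : V)) = s * yt + inner ℝ z v' := by
        rw [inner_add_left, inner_add_right, inner_add_right, real_inner_smul_left,
          real_inner_smul_left, real_inner_smul_right, real_inner_smul_right, S.he,
          Wsub_inner v', real_inner_comm e (z : V), Wsub_inner z, ← Submodule.coe_inner]
        ring
      have e2 : inner ℝ z v' = 3 * t ^ 2 * Q.f e e w v' + 3 * t * Q.f e w w v' + Q.f w w w v' := by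
        rw [hz, inner_add_left, inner_add_left, real_inner_smul_left, real_inner_smul_left,
          hr, inner_R, hβ, inner_bet, hδ, inner_del]
      have e3 : Q.f e e w e = 0 := by rw [Q.s34]; exact S.hw w (Wsub_inner w)
      have e4 : Q.f e w w e = ρ := by rw [Q.s34, Q.s23, hρ]
      have e5 : Q.f w w w e = b := by rw [Q.s34, Q.s23, Q.s12, hb]
      rw [e1, e2, Q.add4, Q.add4, Q.add4, Q.add4, Q.smul4, Q.smul4, Q.smul4, Q.smul4, S.hQ,
        S.hw v' (Wsub_inner v'), e3, e4, e5, hyt]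
      ring)
    rw [expand_xxyy, S.hQ, S.hw z (Wsub_inner z), S.hw w (Wsub_inner w)] at key
    have i1 : inner ℝ (yt • e + (z : V)) (yt • e + (z : V)) = yt ^ 2 + inner ℝ z z := by
      rw [inner_add_left, inner_add_right, inner_add_right, real_inner_smul_left,
          real_inner_smul_left, real_inner_smul_right, real_inner_smul_right, S.he,
          Wsub_inner z, real_inner_comm e (z : V), Wsub_inner z, ← Submodule.coe_inner]
      ring
    have i2 : K.f (t • e + (w : V)) (t • e + (w : V))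
        = t ^ 2 * K.f e e + 2 * t * K.f e w + K.f w w := by
      simp only [K.add1, K.add2, K.smul1, K.smul2, K.symm w e]
      ring
    have q1 := quad_expand (V := Wsub e) (fun x y => inner ℝ x y)
      (fun a a' b => inner_add_left _ _ _) (fun r a b => real_inner_smul_left _ _ _)
      (fun a b => real_inner_comm _ _) r β δ t
    have q2 := quad_expand (V := Wsub e) (fun x y => Q.f e e x y)
      (fun a a' b => by simp only [Submodule.coe_add, Q.add3])
      (fun r a b => by simp only [Submodule.coe_smul, Q.smul3])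
      (fun a b => by simp only [Q.s34 e e (a : V)]) r β δ t
    have q3 := quad_expand (V := Wsub e) (fun x y => Q.f e w x y)
      (fun a a' b => by simp only [Submodule.coe_add, Q.add3])
      (fun r a b => by simp only [Submodule.coe_smul, Q.smul3])
      (fun a b => by simp only [Q.s34 e w (a : V)]) r β δ t
    have q4 := quad_expand (V := Wsub e) (fun x y => Q.f w w x y)
      (fun a a' b => by simp only [Submodule.coe_add, Q.add3])
      (fun r a b => by simp only [Submodule.coe_smul, Q.smul3])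
      (fun a b => by simp only [Q.s34 w w (a : V)]) r β δ t
    rw [← hz] at q1 q2 q3 q4
    have l1 : Q.f e e w z = 3 * t ^ 2 * inner ℝ r r + 3 * t * inner ℝ r β + inner ℝ r δ := by
      rw [← inner_R Q e w z, ← hr, hz, inner_add_right, inner_add_right, real_inner_smul_right,
        real_inner_smul_right]
    have l2 : Q.f e w w z = 3 * t ^ 2 * inner ℝ r β + 3 * t * inner ℝ β β + inner ℝ β δ := by
      rw [← inner_bet Q e w z, ← hβ, hz, inner_add_right, inner_add_right, real_inner_smul_right,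
        real_inner_smul_right, real_inner_comm r β]
    rw [i1, i2, q1, q2, q3, q4, l1, l2] at key
    rw [hyt] at key
    linear_combination key
  obtain ⟨-, -, h2, -, h4, h5, h6, h7, h8⟩ := coeff8' H
  have k0 : K.f e e = 1 := by linarith
  have k1 : K.f e w = 0 := by linarith
  rw [k0, k1] at h2 h4
  rw [k0, k1] at h5
  rw [k0] at h6
  refine ⟨k0, k1, by linarith, by linarith, by linear_combination h4, by linear_combination h2⟩

end Pool.Agent.Helper43.PLap4
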