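import Pool.Agent.Helper43.PLap4.Classify

set_option autoImplicit false

namespace Pool.Agent.Helper43.PLap4

universe u

section
variable {V : Type u} [NormedAddCommGroup V] [InnerProductSpace ℝ V] [FiniteDimensional ℝ V]

omit [FiniteDimensional ℝ V] in
lemma expand1 {ι : Type*} [Fintype ι] (b : OrthonormalBasis ι ℝ V) (Q : Q4 V) (x y z w : V) :
    Q.f x y z w = ∑ i, inner ℝ (b i) x * Q.f (b i) y z w := by
  have h : ∀ v, Q.f v y z w = Q.lin w z y v := fun v => by
    rw [Q.lin_apply, Q.s34 w z y v, Q.s23 w z v y, Q.s12 w v z y, Q.s23 v w z y, Q.s34 v z w y,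
      Q.s23 v z y w]
  conv_lhs => rw [h, ← b.sum_repr' x, map_sum]
  refine Finset.sum_congr rfl fun i _ => ?_
  rw [map_smul, smul_eq_mul, h]

lemma cont4 (Q : Q4 V) : Continuous (fun x => Q.f x x x x) := by
  set b := stdOrthonormalBasis ℝ V
  have hi : ∀ i, Continuous (fun x : V => inner ℝ (b i) x) := fun i => by fun_prop
  have c1 : ∀ a c d, Continuous (fun x => Q.f a c d x) := fun a c d =>
    (Q.lin a c d).continuous_of_finiteDimensional
  have c2 : ∀ a c, Continuous (fun x => Q.f a c x x) := fun a c => by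
    have : (fun x => Q.f a c x x) = fun x => ∑ i, inner ℝ (b i) x * Q.f a c (b i) x := by
      funext x
      rw [Q.s23, Q.s12, expand1 b Q x]
      exact Finset.sum_congr rfl fun i _ => by rw [Q.s12, Q.s23]
    rw [this]
    exact continuous_finsetSum _ fun i _ => (hi i).mul (c1 _ _ _)
  have c3 : ∀ a, Continuous (fun x => Q.f a x x x) := fun a => by
    have : (fun x => Q.f a x x x) = fun x => ∑ i, inner ℝ (b i) x * Q.f a (b i) x x := by
      funext x
      rw [Q.s12, expand1 b Q x]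
      exact Finset.sum_congr rfl fun i _ => by rw [Q.s12]
    rw [this]
    exact continuous_finsetSum _ fun i _ => (hi i).mul (c2 _ _)
  have : (fun x => Q.f x x x x) = fun x => ∑ i, inner ℝ (b i) x * Q.f (b i) x x x := by
    funext x
    exact expand1 b Q x x x x
  rw [this]
  exact continuous_finsetSum _ fun i _ => (hi i).mul (c3 _)

/-- A maximum point of `|Q(x,x,x,x)|` on the unit sphere. -/
lemma exists_max (Q : Q4 V) (hQ : ∃ x, Q.f x x x x ≠ 0) :
    ∃ e : V, inner ℝ e e = (1:ℝ) ∧ Q.f e e e e ≠ 0 ∧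
      ∀ x : V, |Q.f x x x x| ≤ |Q.f e e e e| * (inner ℝ x x) ^ 2 := by
  obtain ⟨x0, hx0⟩ := hQ
  have hx0' : x0 ≠ 0 := by
    rintro rfl; exact hx0 (Q.zero1 _ _ _)
  have hsc : ∀ (r : ℝ) (x : V), Q.f (r • x) (r • x) (r • x) (r • x) = r ^ 4 * Q.f x x x x := by
    intro r x
    rw [Q.smul1, Q.smul2, Q.smul3, Q.smul4]; ring
  have hn0 : (0:ℝ) < ‖x0‖ := norm_pos_iff.2 hx0'
  have hmem : ∀ x : V, x ≠ 0 → (‖x‖⁻¹ : ℝ) • x ∈ Metric.sphere (0 : V) 1 := by
    intro x hx
    have : ‖x‖ ≠ 0 := norm_ne_zero_iff.2 hx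
    rw [mem_sphere_zero_iff_norm, norm_smul, norm_inv, norm_norm, inv_mul_cancel₀ this]
  obtain ⟨e, he, hmax⟩ := (isCompact_sphere (0 : V) 1).exists_isMaxOn
    ⟨_, hmem x0 hx0'⟩ ((cont4 Q).abs.continuousOn)
  have he1 : ‖e‖ = 1 := by simpa using he
  have hb : ∀ x : V, |Q.f x x x x| ≤ |Q.f e e e e| * (inner ℝ x x) ^ 2 := by
    intro x
    by_cases hx : x = 0
    · subst hx; rw [Q.zero1]; simp
    · have h1 := hmax (hmem x hx)
      simp only [Set.mem_ofPred_eq] at h1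
      rw [hsc, abs_mul, abs_of_nonneg (by positivity)] at h1
      have hn : (0:ℝ) < ‖x‖ := norm_pos_iff.2 hx
      rw [inv_pow, inv_mul_le_iff₀ (by positivity)] at h1
      rw [real_inner_self_eq_norm_sq]
      calc |Q.f x x x x| ≤ ‖x‖ ^ 4 * |Q.f e e e e| := h1
        _ = |Q.f e e e e| * (‖x‖ ^ 2) ^ 2 := by ring
  refine ⟨e, by rw [real_inner_self_eq_norm_sq, he1]; norm_num, ?_, hb⟩
  intro h0
  have := hb x0
  rw [h0, abs_zero, zero_mul] at this
  exact hx0 (abs_nonpos_iff.1 this)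

omit [FiniteDimensional ℝ V] in
lemma darb_scale {Q : Q4 V} {K : Q2 V} (h : Darb Q K) {s : ℝ} (hs : s ≠ 0) :
    Darb (Q.scale s) (K.scale s) := by
  intro x y hy
  have := h x (s⁻¹ • y) (by
    intro v
    rw [real_inner_smul_left, hy v, Q4.scale_f, ← mul_assoc, inv_mul_cancel₀ hs, one_mul])
  rw [Q.smul3, Q.smul4, real_inner_smul_left, real_inner_smul_right] at this
  simp only [Q4.scale_f, Q2.scale_f]
  have h2 : Q.f x x y y = s ^ 2 * (s⁻¹ * (s⁻¹ * Q.f x x y y)) := by field_simp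
  rw [h2, this]
  field_simp

lemma lin_zero {a P C D : ℝ}
    (key : ∀ s : ℝ, 4 * s * a + s ^ 2 * P + 4 * s ^ 3 * C + s ^ 4 * D ≤ 0) : a = 0 := by
  by_contra hne
  obtain ⟨M, hM⟩ : ∃ M, M = |P| + 4 * |C| + |D| := ⟨_, rfl⟩
  have hM0 : 0 ≤ M := by rw [hM]; positivity
  have ha : 0 < |a| := abs_pos.2 hne
  obtain ⟨t, ht0, ht1, ht2⟩ : ∃ t : ℝ, 0 < t ∧ t ≤ 1 ∧ t * M < 4 * |a| := by
    refine ⟨min 1 (2 * |a| / (M + 1)), by positivity, min_le_left _ _, ?_⟩
    calc min 1 (2 * |a| / (M + 1)) * M ≤ (2 * |a| / (M + 1)) * M := by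
          gcongr; exact min_le_right _ _
      _ = 2 * |a| * (M / (M + 1)) := by ring
      _ ≤ 2 * |a| * 1 := by
          gcongr; rw [div_le_one (by positivity)]; linarith
      _ < 4 * |a| := by linarith
  have ht3 : t ^ 3 ≤ t ^ 2 := by
    have : t ^ 2 * t ≤ t ^ 2 * 1 := mul_le_mul_of_nonneg_left ht1 (sq_nonneg t)
    linarith [this, (by ring : t ^ 2 * t = t ^ 3)]
  have ht4 : t ^ 4 ≤ t ^ 2 := by
    have : t ^ 3 * t ≤ t ^ 3 * 1 := mul_le_mul_of_nonneg_left ht1 (by positivity)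
    linarith [this, (by ring : t ^ 3 * t = t ^ 4)]
  have hbd : ∀ s : ℝ, |s| = t → -(t ^ 2 * M) ≤ s ^ 2 * P + 4 * s ^ 3 * C + s ^ 4 * D := by
    intro s hs
    have a1 : -(t ^ 2 * |P|) ≤ s ^ 2 * P := by
      have h1 : |s ^ 2 * P| = t ^ 2 * |P| := by rw [abs_mul, abs_pow, hs]
      rw [← h1]; exact neg_abs_le _
    have a2 : -(t ^ 2 * |C|) ≤ s ^ 3 * C := by
      have h1 : |s ^ 3 * C| ≤ t ^ 2 * |C| := by
        rw [abs_mul, abs_pow, hs]
        exact mul_le_mul_of_nonneg_right ht3 (abs_nonneg _)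
      have h2 := neg_abs_le (s ^ 3 * C)
      linarith
    have a3 : -(t ^ 2 * |D|) ≤ s ^ 4 * D := by
      have h1 : |s ^ 4 * D| ≤ t ^ 2 * |D| := by
        rw [abs_mul, abs_pow, hs]
        exact mul_le_mul_of_nonneg_right ht4 (abs_nonneg _)
      have h2 := neg_abs_le (s ^ 4 * D)
      linarith
    have h5 : t ^ 2 * M = t ^ 2 * |P| + 4 * (t ^ 2 * |C|) + t ^ 2 * |D| := by rw [hM]; ring
    have h6 : 4 * s ^ 3 * C = 4 * (s ^ 3 * C) := by ring
    rw [h5, h6]; linarith
  have hfin : 0 < t * (4 * |a| - t * M) := mul_pos ht0 (by linarith)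
  rcases lt_or_gt_of_ne hne with h | h
  · have k1 := key (-t)
    have k2 := hbd (-t) (by rw [abs_neg, abs_of_pos ht0])
    rw [abs_of_neg h] at hfin
    have h7 : t * (4 * -a - t * M) = 4 * (-t) * a - t ^ 2 * M := by ring
    rw [h7] at hfin
    linarith
  · have k1 := key t
    have k2 := hbd t (abs_of_pos ht0)
    rw [abs_of_pos h] at hfin
    have h7 : t * (4 * a - t * M) = 4 * t * a - t ^ 2 * M := by ring
    rw [h7] at hfin
    linarith

omit [FiniteDimensional ℝ V] in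
lemma crit_zero {Q : Q4 V} {e : V} (he : inner ℝ e e = (1:ℝ)) (hQ : Q.f e e e e = 1)
    (hb : ∀ x : V, Q.f x x x x ≤ (inner ℝ x x) ^ 2) (w : V) (hw : inner ℝ e w = (0:ℝ)) :
    Q.f e e e w = 0 := by
  have h1 : Q.f w e e e = Q.f e e e w := by rw [Q.s12, Q.s23, Q.s34]
  have h2 : Q.f e w e e = Q.f e e e w := by rw [Q.s23, Q.s34]
  have h3 : Q.f e e w e = Q.f e e e w := by rw [Q.s34]
  have h4 : Q.f e w e w = Q.f e e w w := by rw [Q.s23]
  have h5 : Q.f e w w e = Q.f e e w w := by rw [Q.s34, Q.s23]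
  have h6 : Q.f w e e w = Q.f e e w w := by rw [Q.s12, Q.s23]
  have h7 : Q.f w e w e = Q.f e e w w := by rw [Q.s34, Q.s12, Q.s23]
  have h8 : Q.f w w e e = Q.f e e w w := by rw [Q.s23, Q.s12, Q.s34, Q.s23]
  have h9 : Q.f w e w w = Q.f e w w w := by rw [Q.s12]
  have h10 : Q.f w w e w = Q.f e w w w := by rw [Q.s23, Q.s12]
  have h11 : Q.f w w w e = Q.f e w w w := by rw [Q.s34, Q.s23, Q.s12]
  set a := Q.f e e e w
  set B := Q.f e e w w
  set C := Q.f e w w w
  set D := Q.f w w w w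
  set N := inner ℝ w w with hN
  have hwe : inner ℝ w e = (0:ℝ) := by rw [real_inner_comm]; exact hw
  have key : ∀ s : ℝ, 4 * s * a + s ^ 2 * (6 * B - 2 * N) + 4 * s ^ 3 * C
      + s ^ 4 * (D - N ^ 2) ≤ 0 := by
    intro s
    have h := hb (e + s • w)
    have e1 : inner ℝ (e + s • w) (e + s • w) = 1 + s ^ 2 * N := by
      simp only [inner_add_left, inner_add_right, real_inner_smul_left, real_inner_smul_right, he,
        hw, hwe, ← hN]
      ring
    rw [e1] at h
    simp only [Q.add1, Q.add2, Q.add3, Q.add4, Q.smul1, Q.smul2, Q.smul3, Q.smul4, h1, h2, h3, h4,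
      h5, h6, h7, h8, h9, h10, h11, hQ] at h
    nlinarith [h]
  exact lin_zero key

/-- projection to the complement -/
noncomputable def pW {e : V} (he : inner ℝ e e = (1:ℝ)) : V →ₗ[ℝ] Wsub e where
  toFun x := ⟨x - (inner ℝ e x : ℝ) • e, by
    rw [Submodule.mem_orthogonal_singleton_iff_inner_right, inner_sub_right, inner_smul_right, he]
    simp⟩
  map_add' x y := by
    apply Subtype.ext
    simp only [inner_add_right, Submodule.coe_add, add_smul]
    abel
  map_smul' r x := by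
    apply Subtype.ext
    simp only [inner_smul_right, Submodule.coe_smul, RingHom.id_apply, smul_sub, smul_smul]

omit [FiniteDimensional ℝ V] in
lemma pW_coe {e : V} (he : inner ℝ e e = (1:ℝ)) (x : V) :
    ((pW he x : Wsub e) : V) = x - (inner ℝ e x : ℝ) • e := rfl

omit [FiniteDimensional ℝ V] in
lemma pW_decomp {e : V} (he : inner ℝ e e = (1:ℝ)) (x : V) :
    x = (inner ℝ e x : ℝ) • e + (pW he x : V) := by
  rw [pW_coe]; abel

omit [FiniteDimensional ℝ V] in
lemma pW_W {e : V} (he : inner ℝ e e = (1:ℝ)) (s : ℝ) (w : Wsub e) :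
    pW he (s • e + (w : V)) = w := by
  apply Subtype.ext
  rw [pW_coe, inner_add_right, Wsub_inner, inner_smul_right, he]
  simp

omit [FiniteDimensional ℝ V] in
lemma inner_sw {e : V} (he : inner ℝ e e = (1:ℝ)) (s t : ℝ) (w v : Wsub e) :
    inner ℝ (s • e + (w : V)) (t • e + (v : V)) = s * t + inner ℝ w v := by
  have h1 : inner ℝ (w : V) e = (0:ℝ) := by rw [real_inner_comm]; exact Wsub_inner w
  simp only [inner_add_left, inner_add_right, real_inner_smul_left, real_inner_smul_right, he,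
    Wsub_inner, h1, Submodule.coe_inner]
  ring

end

theorem classify : ∀ (n : ℕ) (V : Type u) [NormedAddCommGroup V] [InnerProductSpace ℝ V]
    [FiniteDimensional ℝ V], Module.finrank ℝ V = n → ∀ (Q : Q4 V) (K : Q2 V), Darb Q K →
    Proj4 Q := by
  intro n
  induction n using Nat.strong_induction_on with
  | _ n ih =>
  intro V _ _ _ hn Q K hD
  by_cases hz : ∀ x, Q.f x x x x = 0
  · exact ⟨0, 0, fun x y => by simp, fun x => by simp, fun x => by rw [hz x]; simp⟩
  push Not at hz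
  obtain ⟨e, he, hQe, hmax⟩ := exists_max Q hz
  set s := (Q.f e e e e)⁻¹ with hs
  have hs0 : s ≠ 0 := inv_ne_zero hQe
  have hD' := darb_scale hD hs0
  have hQ1 : (Q.scale s).f e e e e = 1 := by
    rw [Q4.scale_f, hs, inv_mul_cancel₀ hQe]
  have hb : ∀ x : V, (Q.scale s).f x x x x ≤ (inner ℝ x x) ^ 2 := by
    intro x
    rw [Q4.scale_f]
    calc s * Q.f x x x x ≤ |s * Q.f x x x x| := le_abs_self _
      _ = |Q.f e e e e|⁻¹ * |Q.f x x x x| := by rw [abs_mul, hs, abs_inv]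
      _ ≤ |Q.f e e e e|⁻¹ * (|Q.f e e e e| * (inner ℝ x x) ^ 2) := by
          gcongr; exact hmax x
      _ = (inner ℝ x x) ^ 2 := by
          rw [← mul_assoc, inv_mul_cancel₀ (abs_ne_zero.2 hQe), one_mul]
  have S : Setup (Q.scale s) (K.scale s) e :=
    ⟨he, hQ1, fun w hw => crit_zero he hQ1 hb w hw, hD'⟩
  have hlt : Module.finrank ℝ (Wsub e) < n := by
    rw [← hn]
    apply Submodule.finrank_lt
    intro htop
    have : e ∈ Wsub e := by rw [htop]; exact Submodule.mem_top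
    rw [Submodule.mem_orthogonal_singleton_iff_inner_right, he] at this
    exact one_ne_zero this
  obtain ⟨π, hsy, hid, hB, hC⟩ := shape S (ih _ hlt (Wsub e) rfl _ _ (darb_res S))
  have hinc : ∀ (x : V), ∃ (t : ℝ) (w : Wsub e), x = t • e + (w : V) := decomp he
  set Pi : V →ₗ[ℝ] V :=
    (LinearMap.toSpanSingleton ℝ V e).comp (innerₛₗ ℝ e) + (Wsub e).subtype.comp (π.comp (pW he))
    with hPi
  have hPia : ∀ (t : ℝ) (w : Wsub e), Pi (t • e + (w : V)) = t • e + ((π w : Wsub e) : V) := by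
    intro t w
    rw [hPi, LinearMap.add_apply, LinearMap.comp_apply, LinearMap.comp_apply, LinearMap.comp_apply,
      pW_W, innerₛₗ_apply_apply, inner_add_right, Wsub_inner, inner_smul_right, he]
    simp
  refine ⟨Pi, Q.f e e e e, ?_, ?_, ?_⟩
  · intro x y
    obtain ⟨a, v, rfl⟩ := hinc x
    obtain ⟨b, w, rfl⟩ := hinc y
    rw [hPia, hPia, inner_sw he, inner_sw he, hsy]
  · intro x
    obtain ⟨a, v, rfl⟩ := hinc x
    rw [hPia, hPia, hid]
  · intro x
    obtain ⟨a, v, rfl⟩ := hinc x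
    rw [hPia, inner_sw he]
    have h1 := expand_xxyy (Q.scale s) e v v a a
    have h3 : (Q.scale s).f e v v v = 0 := odd_zero S v v v
    rw [S.hQ, S.hw v (Wsub_inner v), h3, hB, hC] at h1
    have h2 : (Q.scale s).f (a • e + v) (a • e + v) (a • e + v) (a • e + v)
        = (a * a + inner ℝ (π v) v) ^ 2 := by
      rw [h1]; ring
    rw [← h2, Q4.scale_f, hs, ← mul_assoc, mul_inv_cancel₀ hQe, one_mul]

end Pool.Agent.Helper43.PLap4
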