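import Pool.Agent.Helper43.PLap4.Induct

set_option autoImplicit false

namespace Pool.Agent.Helper43.PLap4

open MvPolynomial

lemma pderiv_comm' {R σ : Type*} [CommRing R] (i j : σ) (f : MvPolynomial σ R) :
    pderiv i (pderiv j f) = pderiv j (pderiv i f) := by
  classical
  induction f using MvPolynomial.induction_on with
  | C a => simp
  | add p q hp hq => simp only [map_add, hp, hq]
  | mul_X p k hp =>
    have hX : ∀ l : σ, pderiv l (X k : MvPolynomial σ R) = C (if l = k then 1 else 0) := by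
      intro l
      rw [pderiv_X]
      by_cases h : l = k
      · subst h; simp
      · simp [h]
    simp only [pderiv_mul, hX, map_add, hp, pderiv_C]
    ring

section
variable {n : ℕ}

/-- directional derivative -/
noncomputable def DD (a : EuclideanSpace ℝ (Fin n)) (f : MvPolynomial (Fin n) ℝ) :
    MvPolynomial (Fin n) ℝ := ∑ i, C (a i) * pderiv i f

lemma DD_add (a b : EuclideanSpace ℝ (Fin n)) (f : MvPolynomial (Fin n) ℝ) :
    DD (a + b) f = DD a f + DD b f := by
  unfold DD
  rw [← Finset.sum_add_distrib]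
  refine Finset.sum_congr rfl fun i _ => ?_
  rw [PiLp.add_apply, C_add, add_mul]

lemma DD_smul (r : ℝ) (a : EuclideanSpace ℝ (Fin n)) (f : MvPolynomial (Fin n) ℝ) :
    DD (r • a) f = C r * DD a f := by
  unfold DD
  rw [Finset.mul_sum]
  refine Finset.sum_congr rfl fun i _ => ?_
  rw [PiLp.smul_apply, smul_eq_mul, C_mul, mul_assoc]

lemma pderiv_DD (i : Fin n) (a : EuclideanSpace ℝ (Fin n)) (f : MvPolynomial (Fin n) ℝ) :
    pderiv i (DD a f) = DD a (pderiv i f) := by
  unfold DD
  rw [map_sum]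
  refine Finset.sum_congr rfl fun j _ => ?_
  rw [pderiv_C_mul, pderiv_comm']

lemma DD_C_mul (a : EuclideanSpace ℝ (Fin n)) (r : ℝ) (f : MvPolynomial (Fin n) ℝ) :
    DD a (C r * f) = C r * DD a f := by
  unfold DD
  rw [Finset.mul_sum]
  refine Finset.sum_congr rfl fun j _ => ?_
  rw [pderiv_C_mul]; ring

lemma DD_sum (a : EuclideanSpace ℝ (Fin n)) (f : Fin n → MvPolynomial (Fin n) ℝ) :
    DD a (∑ i, f i) = ∑ i, DD a (f i) := by
  unfold DD
  rw [Finset.sum_comm]
  refine Finset.sum_congr rfl fun j _ => ?_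
  rw [map_sum, Finset.mul_sum]

lemma DD_addr (a : EuclideanSpace ℝ (Fin n)) (f g : MvPolynomial (Fin n) ℝ) :
    DD a (f + g) = DD a f + DD a g := by
  unfold DD
  rw [← Finset.sum_add_distrib]
  refine Finset.sum_congr rfl fun j _ => ?_
  rw [map_add, mul_add]

lemma DD_comm (a b : EuclideanSpace ℝ (Fin n)) (f : MvPolynomial (Fin n) ℝ) :
    DD a (DD b f) = DD b (DD a f) := by
  conv_lhs => unfold DD
  conv_rhs => rw [show DD a f = ∑ i, C (a i) * pderiv i f from rfl, DD_sum]
  refine Finset.sum_congr rfl fun i _ => ?_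
  rw [DD_C_mul, ← pderiv_DD]
  rfl

lemma DD_hom (a : EuclideanSpace ℝ (Fin n)) {f : MvPolynomial (Fin n) ℝ} {k : ℕ}
    (hf : f.IsHomogeneous k) : (DD a f).IsHomogeneous (k - 1) := by
  unfold DD
  apply IsHomogeneous.sum
  intro i _
  exact hf.pderiv.C_mul _

lemma DD_euler {f : MvPolynomial (Fin n) ℝ} {k : ℕ} (hf : f.IsHomogeneous k)
    (x : EuclideanSpace ℝ (Fin n)) : eval (fun i => x i) (DD x f) = k * eval (fun i => x i) f := by
  have h := congrArg (eval (fun i => x i)) hf.sum_X_mul_pderiv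
  unfold DD
  simpa using h

lemma DD_basis (i : Fin n) (f : MvPolynomial (Fin n) ℝ) :
    DD (EuclideanSpace.single i (1:ℝ)) f = pderiv i f := by
  unfold DD
  rw [Finset.sum_eq_single i]
  · simp
  · intro j _ hj
    simp [hj]
  · intro h; exact absurd (Finset.mem_univ i) h

lemma eval_const {f : MvPolynomial (Fin n) ℝ} (hf : f.IsHomogeneous 0) (x : Fin n → ℝ) :
    eval x f = eval 0 f := by
  rw [← totalDegree_zero_iff_isHomogeneous, totalDegree_eq_zero_iff_eq_C] at hf
  rw [hf, eval_C, eval_C]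

/-- The symmetric 4-linear form of a quartic -/
noncomputable def QF (u : MvPolynomial (Fin n) ℝ) : Q4 (EuclideanSpace ℝ (Fin n)) where
  f a b c d := (1/24) * eval 0 (DD a (DD b (DD c (DD d u))))
  add1 a a' b c d := by rw [DD_add, map_add, mul_add]
  smul1 r a b c d := by rw [DD_smul, map_mul, eval_C]; ring
  s12 a b c d := by rw [DD_comm]
  s23 a b c d := by rw [DD_comm b c]
  s34 a b c d := by rw [DD_comm c d]

variable {u : MvPolynomial (Fin n) ℝ}

lemma QF_four (hu : u.IsHomogeneous 4) (a b c d : EuclideanSpace ℝ (Fin n)) (x : Fin n → ℝ) :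
    eval x (DD a (DD b (DD c (DD d u)))) = 24 * (QF u).f a b c d := by
  have h : (DD a (DD b (DD c (DD d u)))).IsHomogeneous 0 := by
    have := DD_hom a (DD_hom b (DD_hom c (DD_hom d hu)))
    simpa using this
  rw [eval_const h]
  change _ = 24 * ((1/24) * eval 0 (DD a (DD b (DD c (DD d u)))))
  ring

lemma QF_hess (hu : u.IsHomogeneous 4) (a b x : EuclideanSpace ℝ (Fin n)) :
    eval (fun i => x i) (DD a (DD b u)) = 12 * (QF u).f x x a b := by
  have h2 : (DD a (DD b u)).IsHomogeneous 2 := DD_hom a (DD_hom b hu)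
  have h1 : (DD x (DD a (DD b u))).IsHomogeneous 1 := DD_hom x h2
  have e1 := DD_euler h2 x
  have e2 := DD_euler h1 x
  rw [QF_four hu] at e2
  push_cast at e1 e2
  linarith

lemma QF_grad (hu : u.IsHomogeneous 4) (a x : EuclideanSpace ℝ (Fin n)) :
    eval (fun i => x i) (DD a u) = 4 * (QF u).f x x x a := by
  have h3 : (DD a u).IsHomogeneous 3 := DD_hom a hu
  have e1 := DD_euler h3 x
  rw [QF_hess hu] at e1
  push_cast at e1
  linarith

lemma QF_val (hu : u.IsHomogeneous 4) (x : EuclideanSpace ℝ (Fin n)) :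
    eval (fun i => x i) u = (QF u).f x x x x := by
  have e1 := DD_euler hu x
  rw [QF_grad hu] at e1
  push_cast at e1
  linarith

lemma DD_DD_eval (y x : EuclideanSpace ℝ (Fin n)) :
    eval (fun i => x i) (DD y (DD y u)) =
      ∑ i, ∑ j, y i * y j * eval (fun i => x i) (pderiv i (pderiv j u)) := by
  unfold DD
  simp only [map_sum, map_mul, eval_C, pderiv_C_mul, Finset.mul_sum]
  refine Finset.sum_congr rfl fun i _ => Finset.sum_congr rfl fun j _ => ?_
  ring

/-- Laplacian form -/
noncomputable def KF (u : MvPolynomial (Fin n) ℝ) (p : ℝ) : Q2 (EuclideanSpace ℝ (Fin n)) where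
  f a b := -(1 / (p - 2)) * ∑ i, (QF u).f a b (EuclideanSpace.single i (1:ℝ))
    (EuclideanSpace.single i (1:ℝ))
  add1 a a' b := by
    simp only [(QF u).add1, Finset.sum_add_distrib, mul_add]
  smul1 r a b := by
    simp only [(QF u).smul1, ← Finset.mul_sum]; ring
  symm a b := by simp only [(QF u).s12 a b]

lemma darb_of_plap (p : ℝ) (hp2 : p ≠ 2) (hu : u.IsHomogeneous 4)
    (h : ∀ x : Fin n → ℝ,
        (∑ i, (eval x (pderiv i u)) ^ 2) * (∑ i, eval x (pderiv i (pderiv i u))) +
          (p - 2) * ∑ i, ∑ j, eval x (pderiv i u) * eval x (pderiv j u) *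
              eval x (pderiv i (pderiv j u)) = 0) : Darb (QF u) (KF u p) := by
  intro x y hy
  have hx := h (fun i => x i)
  have hg : ∀ i, eval (fun i => x i) (pderiv i u) = 4 * y i := by
    intro i
    rw [← DD_basis i u, QF_grad hu, ← hy]
    simp [EuclideanSpace.inner_single_right]
  have hH : ∀ i, eval (fun i => x i) (pderiv i (pderiv i u)) =
      12 * (QF u).f x x (EuclideanSpace.single i (1:ℝ)) (EuclideanSpace.single i (1:ℝ)) := by
    intro i
    rw [← QF_hess hu, DD_basis, DD_basis]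
  have hyy : inner ℝ y y = ∑ i, (y i) ^ 2 := by
    rw [PiLp.inner_apply]
    exact Finset.sum_congr rfl fun i _ => by simp
  have e1 : (∑ i, (eval (fun i => x i) (pderiv i u)) ^ 2) = 16 * inner ℝ y y := by
    rw [hyy, Finset.mul_sum]
    exact Finset.sum_congr rfl fun i _ => by rw [hg]; ring
  have e2 : (∑ i, ∑ j, eval (fun i => x i) (pderiv i u) * eval (fun i => x i) (pderiv j u) *
      eval (fun i => x i) (pderiv i (pderiv j u))) = 16 * (12 * (QF u).f x x y y) := by
    rw [← QF_hess hu, DD_DD_eval, Finset.mul_sum]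
    refine Finset.sum_congr rfl fun i _ => ?_
    rw [Finset.mul_sum]
    refine Finset.sum_congr rfl fun j _ => ?_
    rw [hg, hg]; ring
  rw [e1, e2, Finset.sum_congr rfl (fun i _ => hH i), ← Finset.mul_sum] at hx
  have hp : p - 2 ≠ 0 := sub_ne_zero.2 hp2
  change _ = (-(1 / (p - 2)) * ∑ i, (QF u).f x x (EuclideanSpace.single i (1:ℝ))
    (EuclideanSpace.single i (1:ℝ))) * inner ℝ y y
  field_simp
  linarith

/-- No nonzero quartic form solves the `p`-Laplace equation. -/
theorem quartic_main (p : ℝ) (hp : 1 < p) (hp2 : p ≠ 2) (u : MvPolynomial (Fin n) ℝ) (hu0 : u ≠ 0)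
    (hu : u.IsHomogeneous 4)
    (h : ∀ x : Fin n → ℝ,
        (∑ i, (eval x (pderiv i u)) ^ 2) * (∑ i, eval x (pderiv i (pderiv i u))) +
          (p - 2) * ∑ i, ∑ j, eval x (pderiv i u) * eval x (pderiv j u) *
              eval x (pderiv i (pderiv j u)) = 0) : False := by
  have hD := darb_of_plap p hp2 hu h
  obtain ⟨π, θ, hs, hi, hq⟩ := classify _ _ rfl _ _ hD
  -- a point where `u` does not vanish
  obtain ⟨x, hx⟩ : ∃ x : EuclideanSpace ℝ (Fin n), (QF u).f x x x x ≠ 0 := by
    by_contra hne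
    push Not at hne
    apply hu0
    apply MvPolynomial.funext
    intro x
    have := QF_val hu (WithLp.toLp 2 x)
    rw [hne] at this
    rw [map_zero]
    exact this
  have hθ : θ ≠ 0 := by
    rintro rfl; apply hx; rw [hq]; ring
  have hπx : inner ℝ (π x) x ≠ (0:ℝ) := by
    intro h0; apply hx; rw [hq, h0]; ring
  set z := π x with hz
  have hπz : π z = z := by rw [hz, hi]
  have hzz : inner ℝ z z ≠ (0:ℝ) := by
    intro h0
    apply hπx
    have : z = 0 := inner_self_eq_zero.1 h0
    rw [this, inner_zero_left]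
  set N := inner ℝ z z with hN
  have hN0 : 0 < N := lt_of_le_of_ne (by rw [hN]; exact real_inner_self_nonneg) (Ne.symm hzz)
  -- gradient at z
  have hpol := fun v => polar_q (QF u) π θ hs hq z v
  have hgrad : ∀ v, inner ℝ ((θ * N) • z) v = (QF u).f z z z v := by
    intro v
    rw [(hpol v).1, hπz, real_inner_smul_left]
  have hd := hD z ((θ * N) • z) hgrad
  rw [(QF u).smul3, (QF u).smul4, real_inner_smul_left, real_inner_smul_right, hq z, hπz, ← hN] at hd
  set τ := ∑ i : Fin n, inner ℝ (π (EuclideanSpace.single i (1:ℝ))) (EuclideanSpace.single i (1:ℝ))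
    with hτ
  have hzsum : ∑ i : Fin n, (inner ℝ z (EuclideanSpace.single i (1:ℝ))) ^ 2 = N := by
    rw [hN, PiLp.inner_apply]
    refine Finset.sum_congr rfl fun i _ => ?_
    simp [EuclideanSpace.inner_single_right]
  have hK : (KF u p).f z z = -(1 / (p - 2)) * (θ * (N * τ + 2 * N) / 3) := by
    change -(1 / (p - 2)) * ∑ i, (QF u).f z z (EuclideanSpace.single i (1:ℝ))
      (EuclideanSpace.single i (1:ℝ)) = _
    congr 1
    have h3 : 3 * ∑ i, (QF u).f z z (EuclideanSpace.single i (1:ℝ))
        (EuclideanSpace.single i (1:ℝ)) = θ * (N * τ + 2 * N) := by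
      have : ∀ i : Fin n, 3 * (QF u).f z z (EuclideanSpace.single i (1:ℝ))
          (EuclideanSpace.single i (1:ℝ)) = θ * (N * inner ℝ (π (EuclideanSpace.single i (1:ℝ)))
            (EuclideanSpace.single i (1:ℝ)) + 2 * (inner ℝ z (EuclideanSpace.single i (1:ℝ))) ^ 2) := by
        intro i
        rw [(hpol _).2, hπz]
      rw [Finset.mul_sum, Finset.sum_congr rfl (fun i _ => this i), ← Finset.mul_sum,
        Finset.sum_add_distrib, ← Finset.mul_sum, ← Finset.mul_sum, hzsum]
    linarith
  rw [hK] at hd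
  have hp0 : p - 2 ≠ 0 := sub_ne_zero.2 hp2
  have hfin : -(3 * (p - 2)) = τ + 2 := by
    field_simp at hd
    linarith
  -- the trace is at least one
  have hτ1 : 1 ≤ τ := by
    have h6 : ∀ i : Fin n, (inner ℝ z (EuclideanSpace.single i (1:ℝ))) ^ 2 ≤
        N * inner ℝ (π (EuclideanSpace.single i (1:ℝ))) (EuclideanSpace.single i (1:ℝ)) := by
      intro i
      set ei : EuclideanSpace ℝ (Fin n) := EuclideanSpace.single i (1:ℝ)
      have h7 : inner ℝ z ei = inner ℝ z (π ei) := by
        rw [← hs, hπz]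
      have h8 : inner ℝ (π ei) ei = inner ℝ (π ei) (π ei) := by
        rw [← hs (π ei) ei, hi]
      rw [h7, h8]
      have := real_inner_mul_inner_self_le z (π ei)
      rw [← hN] at this
      calc (inner ℝ z (π ei)) ^ 2 = inner ℝ z (π ei) * inner ℝ z (π ei) := by ring
        _ ≤ _ := this
    have h9 : N ≤ N * τ := by
      calc N = ∑ i : Fin n, (inner ℝ z (EuclideanSpace.single i (1:ℝ))) ^ 2 := hzsum.symm
        _ ≤ ∑ i : Fin n, N * inner ℝ (π (EuclideanSpace.single i (1:ℝ)))
            (EuclideanSpace.single i (1:ℝ)) := Finset.sum_le_sum fun i _ => h6 i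
        _ = N * τ := by rw [hτ, Finset.mul_sum]
    by_contra hlt
    push Not at hlt
    nlinarith
  linarith

end
end Pool.Agent.Helper43.PLap4
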