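import Pool.Agent.Helper43.PLap4.Eigen

set_option autoImplicit false

namespace Pool.Agent.Helper43.PLap4

variable {V : Type*} [NormedAddCommGroup V] [InnerProductSpace ℝ V] [FiniteDimensional ℝ V]

variable {Q : Q4 V} {K : Q2 V} {e : V}

lemma g_zero (S : Setup Q K e) (w : Wsub e) :
    Q.f e w (Rop Q e w) (Rop Q e w) + Q.f e w w (Rop Q e (Rop Q e w)) = 0 := by
  obtain ⟨-, -, -, h3, -⟩ := cf_zero S w
  have : Q.f e e (Rop Q e w) (bet Q e w) = Q.f e w w (Rop Q e (Rop Q e w)) := by
    rw [← inner_R Q e (Rop Q e w) (bet Q e w), real_inner_comm, inner_bet]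
  rw [← this]; exact h3

lemma g_polar (S : Setup Q K e) (a b c : Wsub e) :
    Q.f e a (Rop Q e b) (Rop Q e c) + Q.f e b (Rop Q e a) (Rop Q e c)
      + Q.f e c (Rop Q e a) (Rop Q e b) + Q.f e a b (Rop Q e (Rop Q e c))
      + Q.f e a c (Rop Q e (Rop Q e b)) + Q.f e b c (Rop Q e (Rop Q e a)) = 0 := by
  have h1 := g_zero S a
  have h2 := g_zero S b
  have h3 := g_zero S c
  have h12 := g_zero S (a + b)
  have h13 := g_zero S (a + c)
  have h23 := g_zero S (b + c)
  have h123 := g_zero S (a + b + c)
  simp only [map_add, Submodule.coe_add, Q.add2, Q.add3, Q.add4] at h12 h13 h23 h123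
  have e1 := Q.s34 e a (Rop Q e b) (Rop Q e c)
  have e2 := Q.s34 e b (Rop Q e a) (Rop Q e c)
  have e3 := Q.s34 e c (Rop Q e a) (Rop Q e b)
  have e4 := Q.s23 e a b (Rop Q e (Rop Q e c))
  have e5 := Q.s23 e a c (Rop Q e (Rop Q e b))
  have e6 := Q.s23 e b c (Rop Q e (Rop Q e a))
  linear_combination (1/2) * (h123 - h12 - h13 - h23 + h1 + h2 + h3)
    + (1/2) * (e1 + e2 + e3 + e4 + e5 + e6)

/-- a symmetric trilinear form vanishing on an orthonormal basis vanishes -/
lemma tri_zero {n : ℕ} (b : OrthonormalBasis (Fin n) ℝ (Wsub e)) (Q : Q4 V)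
    (h : ∀ i j k, Q.f e (b i) (b j) (b k) = 0) (x y z : Wsub e) : Q.f e x y z = 0 := by
  have h1 : ∀ i j (z : Wsub e), Q.f e (b i) (b j) z = 0 := by
    intro i j z
    have : linW Q e e (b i) (b j) = 0 := b.toBasis.ext (fun k => by
      simpa [linW_apply] using h i j k)
    have := congrArg (fun L => L z) this
    simpa [linW_apply] using this
  have h2 : ∀ i (y z : Wsub e), Q.f e (b i) y z = 0 := by
    intro i y z
    have : linW Q e e (b i) z = 0 := b.toBasis.ext (fun k => by
      have := h1 i k z
      rw [Q.s34] at this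
      simpa [linW_apply] using this)
    have := congrArg (fun L => L y) this
    rw [Q.s34]
    simpa [linW_apply] using this
  have : linW Q e e y z = 0 := b.toBasis.ext (fun k => by
      have := h2 k y z
      rw [Q.s23, Q.s34] at this
      simpa [linW_apply] using this)
  have := congrArg (fun L => L x) this
  rw [Q.s23, Q.s34]
  simpa [linW_apply] using this

lemma psd_form {a b c : ℝ} (h : a ^ 2 + b ^ 2 + c ^ 2 + a * b + b * c + a * c = 0) :
    a = 0 ∧ b = 0 ∧ c = 0 := by
  have ha : a ^ 2 = 0 := by nlinarith [sq_nonneg (a + b + c), sq_nonneg a, sq_nonneg b, sq_nonneg c]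
  have hb : b ^ 2 = 0 := by nlinarith [sq_nonneg (a + b + c), sq_nonneg a, sq_nonneg b, sq_nonneg c]
  have hc : c ^ 2 = 0 := by nlinarith [sq_nonneg (a + b + c), sq_nonneg a, sq_nonneg b, sq_nonneg c]
  exact ⟨by simpa using ha, by simpa using hb, by simpa using hc⟩

/-- The odd part vanishes: `Q(e,x,y,z) = 0` on the orthogonal complement of `e`. -/
lemma odd_zero (S : Setup Q K e) (x y z : Wsub e) : Q.f e x y z = 0 := by
  obtain ⟨n, hn⟩ : ∃ n, Module.finrank ℝ (Wsub e) = n := ⟨_, rfl⟩
  set b := (R_symm Q e).eigenvectorBasis hn with hb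
  set r := (R_symm Q e).eigenvalues hn with hr
  have hR : ∀ i, Rop Q e (b i) = r i • b i := fun i =>
    (R_symm Q e).apply_eigenvectorBasis hn i
  -- Step A
  have hA : ∀ i j k, Q.f e (b i) (b j) (b k) = 0 ∨ (r i = 0 ∧ r j = 0 ∧ r k = 0) := by
    intro i j k
    have := g_polar S (b i) (b j) (b k)
    simp only [hR, map_smul, Submodule.coe_smul, Q.smul2, Q.smul3, Q.smul4] at this
    have e3 : Q.f e (b k) (b i) (b j) = Q.f e (b i) (b j) (b k) := by
      rw [Q.s23, Q.s34]
    have e2 : Q.f e (b j) (b i) (b k) = Q.f e (b i) (b j) (b k) := by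
      rw [Q.s23]
    have e4 : Q.f e (b i) (b k) (b j) = Q.f e (b i) (b j) (b k) := by
      rw [Q.s34]
    have e5 : Q.f e (b j) (b k) (b i) = Q.f e (b i) (b j) (b k) := by
      rw [Q.s34, Q.s23]
    rw [e3, e2, e4, e5] at this
    have h2 : Q.f e (b i) (b j) (b k) *
        (r i ^ 2 + r j ^ 2 + r k ^ 2 + r i * r j + r j * r k + r i * r k) = 0 := by
      linear_combination this
    rcases mul_eq_zero.1 h2 with h | h
    · exact Or.inl h
    · exact Or.inr (psd_form h)
  -- Step B: on the kernel
  have hB : ∀ w : Wsub e, Rop Q e w = 0 → Rop Q e (bet Q e w) = 0 → ∀ v : Wsub e, Q.f e w w v = 0 := by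
    intro w hw hβ v
    obtain ⟨-, -, h2, -, h4, -⟩ := cf_zero S w
    rw [hw] at h2 h4
    have hρ : Q.f e e w w = 0 := by rw [← inner_R, hw, inner_zero_left]
    have hββ : Q.f e e (bet Q e w) (bet Q e w) = 0 := by rw [← inner_R, hβ, inner_zero_left]
    simp only [Submodule.coe_zero, Q.zero3, Q.zero4, inner_zero_left, hρ, hββ] at h2 h4
    have h0 : inner ℝ (bet Q e w) (bet Q e w) = (0:ℝ) := by linarith
    rw [inner_self_eq_zero] at h0
    rw [← inner_bet, h0, inner_zero_left]
  have hC : ∀ i j k, Q.f e (b i) (b j) (b k) = 0 := by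
    intro i j k
    rcases hA i j k with h | ⟨hi, hj, hk⟩
    · exact h
    · -- polarise
      have hRβ : ∀ w : Wsub e, (∃ x y : ℝ, w = x • b i + y • b j) → Rop Q e (bet Q e w) = 0 := by
        rintro w -
        apply eq_of_inner
        intro v
        rw [inner_zero_left, inner_R, Q.s34, ← inner_R, real_inner_comm, inner_bet]
        -- Q e w w (R v) = 0
        have : linW Q e e w w ∘ₗ Rop Q e = 0 := b.toBasis.ext (fun l => by
          simp only [OrthonormalBasis.coe_toBasis, LinearMap.comp_apply, hR, map_smul,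
            LinearMap.zero_apply, linW_apply, smul_eq_mul]
          by_cases hl : r l = 0
          · rw [hl, zero_mul]
          · have h3 : ∀ y z : Wsub e, Q.f e y z (b l) = 0 := by
              intro y z
              have a1 : ∀ i' (z : Wsub e), Q.f e (b i') z (b l) = 0 := by
                intro i' z
                have : linW Q e e (b i') (b l) = 0 := b.toBasis.ext (fun k' => by
                  rcases hA i' l k' with h | h
                  · simpa [linW_apply] using h
                  · exact absurd h.2.1 hl)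
                have := congrArg (fun L => L z) this
                rw [Q.s34]
                simpa [linW_apply] using this
              have : linW Q e e z (b l) = 0 := b.toBasis.ext (fun k' => by
                have := a1 k' z
                rw [Q.s23, Q.s34] at this
                simpa [linW_apply] using this)
              have := congrArg (fun L => L y) this
              rw [Q.s23, Q.s34]
              simpa [linW_apply] using this
            rw [h3, mul_zero])
        have := congrArg (fun L => L v) this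
        simpa [linW_apply] using this
      have k1 := hB (b i) (by rw [hR, hi, zero_smul]) (hRβ _ ⟨1, 0, by simp⟩) (b k)
      have k2 := hB (b j) (by rw [hR, hj, zero_smul]) (hRβ _ ⟨0, 1, by simp⟩) (b k)
      have k3 := hB (b i + b j) (by rw [map_add, hR, hR, hi, hj, zero_smul, zero_smul, add_zero])
        (hRβ _ ⟨1, 1, by simp⟩) (b k)
      simp only [Submodule.coe_add, Q.add2, Q.add3] at k3
      have k4 := Q.s23 e (b i) (b j) (b k)
      linarith
  exact tri_zero b Q hC x y z

end Pool.Agent.Helper43.PLap4
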